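import Pool.Agent.Work.MP_4d52ff_nt.Asymp

set_option autoImplicit false

open Filter Topology

namespace Pool.Agent.Work.MP_4d52ff_nt.Old.AlmostDirect

/-- the set of multiple zeta values of weight `w` -/
def mzvSet (w : ℕ) : Set ℝ :=
  {x : ℝ | ∃ t : ℕ, ∃ k : Fin t → ℕ,
          (∀ i, 1 ≤ k i) ∧ (∀ h : 0 < t, 2 ≤ k ⟨0, h⟩) ∧ (∑ i, k i) = w ∧
          x = ∑' n : {n : Fin t → ℕ // StrictAnti n ∧ ∀ i, 1 ≤ n i},
                ∏ i, (((n.1 i : ℕ) : ℝ) ^ (k i))⁻¹}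

/-- the rational span of the multiple zeta values of weight `w` -/
noncomputable def Z (w : ℕ) : Submodule ℚ ℝ := Submodule.span ℚ (mzvSet w)

/-- the sum `Z 0 + ... + Z N` -/
noncomputable def sumUpTo (N : ℕ) : Submodule ℚ ℝ := ⨆ w ∈ Finset.range (N + 1), Z w

/-- the sum `Z 0 + ... + Z p` is direct -/
def DirectUpTo (p : ℕ) : Prop :=
  ∀ z : ℕ → ℝ, (∀ j ≤ p, z j ∈ Z j) → (∑ j ∈ Finset.range (p + 1), z j) = 0 → ∀ j ≤ p, z j = 0

/-- First part: if directness fails at `p`, then the sum of all weight spaces up to any weight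
`M ≥ p` has dimension at most the sum of the dimensions of the last `p` of them.
Second part: directness at every `p` holds if and only if it holds asymptotically. -/
theorem result :
    (∀ p : ℕ, DirectUpTo p ∨ ∀ M : ℕ, p ≤ M →
      Module.finrank ℚ (sumUpTo M) ≤ ∑ w ∈ Finset.Ioc (M - p) M, Module.finrank ℚ (Z w)) ∧
    ((∀ p : ℕ, DirectUpTo p) ↔
      Tendsto (fun N : ℕ => (Module.finrank ℚ (sumUpTo N) : ℝ) /
        ((∑ w ∈ Finset.range (N + 1), Module.finrank ℚ (Z w) : ℕ) : ℝ)) atTop (𝓝 1)) := by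
  refine ⟨fun p => ?_, ?_⟩
  · by_cases h : Pool.Agent.Work.MP_4d52ff_nt.DirectAt p
    · exact Or.inl h
    · exact Or.inr (fun M hM => Pool.Agent.Work.MP_4d52ff_nt.defect_Ioc h M hM)
  · exact Pool.Agent.Work.MP_4d52ff_nt.ratio_iff

end Pool.Agent.Work.MP_4d52ff_nt.Old.AlmostDirect
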