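import Pool.Agent.Work.MP_4d52ff_nt.DichotomyBar

set_option autoImplicit false

namespace Pool.Agent.Work.MP_4d52ff_nt.Old.Dichotomy

/-- the set of multiple zeta values of weight `w` (as real numbers) -/
def mzvSet (w : ℕ) : Set ℝ :=
  {x : ℝ | ∃ t : ℕ, ∃ k : Fin t → ℕ,
          (∀ i, 1 ≤ k i) ∧ (∀ h : 0 < t, 2 ≤ k ⟨0, h⟩) ∧ (∑ i, k i) = w ∧
          x = ∑' n : {n : Fin t → ℕ // StrictAnti n ∧ ∀ i, 1 ≤ n i},
                ∏ i, (((n.1 i : ℕ) : ℝ) ^ (k i))⁻¹}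

/-- the span in `ℂ` of the multiple zeta values of weight `w` over the field of algebraic numbers -/
noncomputable def algSpan (w : ℕ) : Submodule (algebraicClosure ℚ ℂ) ℂ :=
  Submodule.span (algebraicClosure ℚ ℂ) ((fun x : ℝ => (x : ℂ)) '' mzvSet w)

/-- For every `p`: either the `algSpan 0, ..., algSpan p` are in direct sum, or
`dim (algSpan w) ≥ (w - 1) / (2 p)` for every `w ≥ 2`. -/
theorem result (p : ℕ) :
    (∀ z : ℕ → ℂ, (∀ j ≤ p, z j ∈ algSpan j) →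
      (∑ j ∈ Finset.range (p + 1), z j) = 0 → ∀ j ≤ p, z j = 0) ∨
    (∀ w : ℕ, 2 ≤ w →
      w - 1 ≤ 2 * p * Module.finrank (algebraicClosure ℚ ℂ) (algSpan w)) :=
  Pool.Agent.Work.MP_4d52ff_nt.dichotomyBar p

end Pool.Agent.Work.MP_4d52ff_nt.Old.Dichotomy
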