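import Pool.Agent.Work.MP_4d52ff_nt.Forms

set_option autoImplicit false

namespace Pool.Agent.Work.MP_4d52ff_nt.Old.FieldForms

/-- the set of multiple zeta values of weight `w` -/
def mzvSet (w : ℕ) : Set ℝ :=
  {x : ℝ | ∃ t : ℕ, ∃ k : Fin t → ℕ,
          (∀ i, 1 ≤ k i) ∧ (∀ h : 0 < t, 2 ≤ k ⟨0, h⟩) ∧ (∑ i, k i) = w ∧
          x = ∑' n : {n : Fin t → ℕ // StrictAnti n ∧ ∀ i, 1 ≤ n i},
                ∏ i, (((n.1 i : ℕ) : ℝ) ^ (k i))⁻¹}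

/-- the subfield of `ℝ` generated by the numbers `x / π ^ w`, `x` a multiple zeta value of
weight `w`, `w = 0, 1, 2, ...` -/
noncomputable def normField : IntermediateField ℚ ℝ :=
  IntermediateField.adjoin ℚ {r : ℝ | ∃ w : ℕ, ∃ x ∈ mzvSet w, r = x / Real.pi ^ w}

/-- Equivalent forms of the directness of the sum of the weight spaces. -/
theorem result : List.TFAE [
    ∀ p : ℕ, ∀ z : ℕ → ℝ, (∀ j ≤ p, z j ∈ Submodule.span ℚ (mzvSet j)) →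
      (∑ j ∈ Finset.range (p + 1), z j) = 0 → ∀ j ≤ p, z j = 0,
    Transcendental normField Real.pi,
    ∀ w d : ℕ, ∀ x : ℕ → ℝ, (∀ i ≤ d, x i ∈ Submodule.span ℚ (mzvSet w)) →
      (∑ i ∈ Finset.range (d + 1), Real.pi ^ (2 * i) * x i) = 0 → ∀ i ≤ d, x i = 0,
    ∀ p : ℕ, ∀ z : ℕ → ℂ,
      (∀ j ≤ p, z j ∈
        Submodule.span (algebraicClosure ℚ ℂ) ((fun x : ℝ => (x : ℂ)) '' mzvSet j)) →
      (∑ j ∈ Finset.range (p + 1), z j) = 0 → ∀ j ≤ p, z j = 0,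
    ∀ q : ℚ, q ≠ 0 → ∃ σ : ℂ ≃+* ℂ, ∀ w : ℕ, ∀ x ∈ mzvSet w, σ (x : ℂ) = (q : ℂ) ^ w * x,
    ∃ q : ℚ, q ≠ 0 ∧ q ≠ 1 ∧ q ≠ -1 ∧
      ∃ σ : ℂ ≃+* ℂ, ∀ w : ℕ, ∀ x ∈ mzvSet w, σ (x : ℂ) = (q : ℂ) ^ w * x,
    ∃ D : Derivation ℚ ℂ ℂ, ∀ w : ℕ, ∀ x ∈ mzvSet w, D (x : ℂ) = (w : ℂ) * x] :=
  Pool.Agent.Work.MP_4d52ff_nt.forms_tfae

end Pool.Agent.Work.MP_4d52ff_nt.Old.FieldForms
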