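import Pool.Agent.Work.MP_4d52ff_nt.Pattern

set_option autoImplicit false

namespace Pool.Agent.Work.MP_4d52ff_nt.Old.ThinWeights

/-- the set of multiple zeta values of weight `w` -/
def mzvSet (w : ℕ) : Set ℝ :=
  {x : ℝ | ∃ t : ℕ, ∃ k : Fin t → ℕ,
          (∀ i, 1 ≤ k i) ∧ (∀ h : 0 < t, 2 ≤ k ⟨0, h⟩) ∧ (∑ i, k i) = w ∧
          x = ∑' n : {n : Fin t → ℕ // StrictAnti n ∧ ∀ i, 1 ≤ n i},
                ∏ i, (((n.1 i : ℕ) : ℝ) ^ (k i))⁻¹}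

/-- the multiple zeta values `ζ(k₁, ..., k_t)` of weight `w` such that the list `k₁, ..., k_t` has
a sublist of the same length as `c` which is entrywise at least `c` -/
def patternSet (c : List ℕ) (w : ℕ) : Set ℝ :=
  {x : ℝ | ∃ t : ℕ, ∃ k : Fin t → ℕ,
          (∀ i, 1 ≤ k i) ∧ (∀ h : 0 < t, 2 ≤ k ⟨0, h⟩) ∧ (∑ i, k i) = w ∧
          List.SublistForall₂ (· ≤ ·) c (List.ofFn k) ∧
          x = ∑' n : {n : Fin t → ℕ // StrictAnti n ∧ ∀ i, 1 ≤ n i},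
                ∏ i, (((n.1 i : ℕ) : ℝ) ^ (k i))⁻¹}

/-- Directness of the full sum of weight spaces is equivalent to directness for the values whose
index dominates the pattern `c`, along one thin sequence `F 0, F 1, ...` of sets of weights. -/
theorem result (c : List ℕ) (F : ℕ → Finset ℕ) (hcard : ∀ m, m ≤ (F m).card)
    (hF : ∀ m, ∀ x ∈ F m, ∀ y ∈ F m, m * (x - y) ≤ y) :
    (∀ m : ℕ, ∀ z : ℕ → ℝ, (∀ j ∈ F m, z j ∈ Submodule.span ℚ (patternSet c j)) →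
      ∑ j ∈ F m, z j = 0 → ∀ j ∈ F m, z j = 0) ↔
    (∀ p : ℕ, ∀ z : ℕ → ℝ, (∀ j ≤ p, z j ∈ Submodule.span ℚ (mzvSet j)) →
      (∑ j ∈ Finset.range (p + 1), z j) = 0 → ∀ j ≤ p, z j = 0) :=
  Pool.Agent.Work.MP_4d52ff_nt.thin_main c F hcard hF

end Pool.Agent.Work.MP_4d52ff_nt.Old.ThinWeights
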